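import Mathlib

set_option autoImplicit false
open Set Filter Topology TopologicalSpace Cardinal

namespace Pool.Agent.H.MP_034e58

theorem trec {I α : Type} [LinearOrder I] [WellFoundedLT I] (g : I → Set (I × α) → α) :
    ∃ f : I → α, ∀ i, f i = g i ((fun j => (j, f j)) '' Iio i) := by
  let F : (i : I) → ((j : I) → j < i → α) → α := fun i ih => g i (range fun j : Iio i => (j.1, ih j.1 j.2))
  refine ⟨(wellFounded_lt (α := I)).fix F, fun i => ?_⟩
  rw [WellFounded.fix_eq, image_eq_range]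

theorem seq {α : Type} (P : ℕ → α → Prop) (r : α → α → Prop)
    (h : ∀ n (s : Set α), s.Finite → ∃ y, P n y ∧ ∀ x ∈ s, r x y) :
    ∃ f : ℕ → α, ∀ n, P n (f n) ∧ ∀ m < n, r (f m) (f n) := by
  have : Nonempty α := ⟨(h 0 ∅ finite_empty).choose⟩
  choose! g hg using h
  obtain ⟨f, hf⟩ := trec fun n s => g n (Prod.snd '' s)
  refine ⟨f, fun n => ?_⟩
  have := hg n _ (((finite_Iio n).image fun j => (j, f j)).image Prod.snd)
  rw [← hf] at this
  exact ⟨this.1, fun m hm => this.2 _ ⟨_, ⟨m, hm, rfl⟩, rfl⟩⟩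

theorem assign {E S : Type} [Nonempty E] (hE : #E ≤ 𝔠) (hS : #S = 𝔠) (φ : E → S → Option S) :
    ∃ (A : Set S) (lab : S → E), ∀ e, (∃ x ∈ A, lab x = e ∧ ∃ y, φ e x = some y ∧ (y ∈ A → y = x)) ∨
      ∃ Y : Set S, #Y < 𝔠 ∧ 𝔠 ≤ #{x | x ∈ A ∧ lab x = e ∧ ∀ y, φ e x = some y → y ∈ Y} := by
  classical
  let I := (𝔠 : Cardinal.{0}).ord.ToType
  have hI : ∀ i : I, #(Iio i) < 𝔠 := fun i => (mk_Iio_lt i (by simp [I])).trans_eq (by simp [I])
  obtain ⟨q⟩ : Nonempty (I ≃ E × S) := Cardinal.eq.1 (by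
    rw [mk_prod, lift_id, lift_id, hS, mul_eq_right aleph0_le_continuum hE (mk_ne_zero E)]
    simp [I])
  let X : Set (I × S) → Set S := fun s => Prod.snd '' s ∪ (fun p => (φ (q p.1).1 p.2).getD p.2) '' s
  have hX : ∀ s : Set (I × S), #s < 𝔠 → ∃ x, x ∉ X s := fun s hs => by
    by_contra! h
    have h1 : #(X s) < 𝔠 := (mk_union_le _ _).trans_lt
      (add_lt_of_lt aleph0_le_continuum (mk_image_le.trans_lt hs) (mk_image_le.trans_lt hs))
    rw [eq_univ_of_forall h, mk_univ, hS] at h1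
    exact h1.false
  have : Nonempty S := mk_ne_zero_iff.1 (hS ▸ continuum_ne_zero)
  let G : I → Set (I × S) → S → Prop := fun i s x => x ∉ X s ∧ ∃ y, φ (q i).1 x = some y ∧ y ∉ Prod.snd '' s
  have H : ∀ i (s : Set (I × S)), #s < 𝔠 → ∃ x, x ∉ X s ∧ ((∃ x, G i s x) → G i s x) := fun i s hs => by
    by_cases h : ∃ x, G i s x
    · exact ⟨_, h.choose_spec.1, fun _ => h.choose_spec⟩
    · exact (hX s hs).imp fun _ h' => ⟨h', fun h'' => absurd h'' h⟩
  choose! g hg using H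
  obtain ⟨f, hf⟩ := trec g
  have h1 := fun i => hg i ((fun j => (j, f j)) '' Iio i) (mk_image_le.trans_lt (hI i))
  simp only [← hf] at h1
  have h2 : Function.Injective f := Function.Injective.of_lt_imp_ne fun i j h h' =>
    (h1 j).1 (Or.inl ⟨_, ⟨i, h, rfl⟩, h'⟩)
  refine ⟨range f, Function.extend f (fun i => (q i).1) fun _ => Classical.arbitrary E, fun e => ?_⟩
  by_cases h : ∃ i, (q i).1 = e ∧ ∃ x, G i ((fun j => (j, f j)) '' Iio i) x
  · obtain ⟨i, rfl, h⟩ := h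
    obtain ⟨-, y, h3, h4⟩ := (h1 i).2 h
    refine Or.inl ⟨f i, ⟨i, rfl⟩, h2.extend_apply _ _ _, y, h3, ?_⟩
    rintro ⟨j, rfl⟩
    rcases lt_trichotomy j i with h5 | rfl | h5
    · exact absurd ⟨_, ⟨j, h5, rfl⟩, rfl⟩ h4
    · rfl
    · exact absurd (Or.inr ⟨_, ⟨i, h5, rfl⟩, by simp [h3]⟩) (h1 j).1
  · let i0 := q.symm (e, Classical.arbitrary S)
    refine Or.inr ⟨f '' Iio i0, mk_image_le.trans_lt (hI i0), ?_⟩
    have h3 : 𝔠 ≤ #(↥(range (fun s => q.symm (e, s)) \ Iio i0)) := by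
      by_contra! h3
      have := (le_mk_sdiff_add_mk (range fun s => q.symm (e, s)) (Iio i0)).trans_lt
        (add_lt_of_lt aleph0_le_continuum h3 (hI i0))
      rw [mk_range_eq _ fun a b h => (Prod.ext_iff.1 (q.symm.injective h)).2, hS] at this
      exact this.false
    refine h3.trans ((mk_image_eq h2).symm.trans_le (mk_le_mk_of_subset ?_))
    rintro _ ⟨j, ⟨⟨s, rfl⟩, h4⟩, rfl⟩
    refine ⟨⟨_, rfl⟩, by simp [h2.extend_apply], fun y hy => by_contra fun h5 => h ⟨i0, by simp [i0],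
      f (q.symm (e, s)), fun h6 => (h1 (q.symm (e, s))).1 ?_, y, by simpa [i0] using hy, by rwa [image_image]⟩⟩
    have h7 := image_mono (f := fun j => (j, f j)) (Iio_subset_Iio (not_lt.1 h4))
    exact union_subset_union (image_mono h7) (image_mono h7) h6

end Pool.Agent.H.MP_034e58
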