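import Pool.Agent.H.MP_034e58.A

set_option autoImplicit false
open Set Filter Topology TopologicalSpace Metric

namespace Pool.Agent.H.MP_034e58

abbrev J := Icc (0 : ℝ) 1

noncomputable def r (k : ℕ) : ℝ := (denseSeq J (Nat.unpair k).1).1
noncomputable def ρ (k : ℕ) : ℝ := (1 / 2) ^ k / 10
noncomputable def ctr (k : ℕ) : ℝ × ℝ := (r k, 10 * ρ k)
def Dk (k : ℕ) : Set (ℝ × ℝ) := closedBall (ctr k) (ρ k)
def Rk (k : ℕ) : Set (ℝ × ℝ) := ball (ctr k) (2 * ρ k)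
def D : Set (ℝ × ℝ) := ⋃ k, Dk k

theorem ρ_pos (k : ℕ) : 0 < ρ k := by unfold ρ; positivity

theorem ρ_lt {k l : ℕ} (h : k < l) : 2 * ρ l ≤ ρ k := by
  have := pow_le_pow_of_le_one (a := (1 / 2 : ℝ)) (by norm_num) (by norm_num) (Nat.succ_le_of_lt h)
  rw [pow_succ] at this
  unfold ρ; linarith

theorem ρ_le (k : ℕ) : ρ k ≤ 1 / 10 := by
  have : (1 / 2 : ℝ) ^ k ≤ 1 := pow_le_one₀ (by norm_num) (by norm_num)
  unfold ρ; linarith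

theorem ρ_sum : Summable ρ := (summable_geometric_two).div_const _

theorem uniq {k l : ℕ} {t : ℝ} (h1 : |t - 10 * ρ k| ≤ 3 * ρ k) (h2 : |t - 10 * ρ l| ≤ 3 * ρ l) : k = l := by
  rw [abs_le] at h1 h2
  have := ρ_pos k
  have := ρ_pos l
  rcases lt_trichotomy k l with h | h | h
  · linarith [ρ_lt h]
  · exact h
  · linarith [ρ_lt h]

theorem mem_Dk {k : ℕ} {z : ℝ × ℝ} : z ∈ Dk k ↔ |z.1 - r k| ≤ ρ k ∧ |z.2 - 10 * ρ k| ≤ ρ k := by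
  simp [Dk, ctr, Prod.dist_eq, Real.dist_eq]

theorem mem_Rk {k : ℕ} {z : ℝ × ℝ} : z ∈ Rk k ↔ |z.1 - r k| < 2 * ρ k ∧ |z.2 - 10 * ρ k| < 2 * ρ k := by
  simp [Rk, ctr, Prod.dist_eq, Real.dist_eq]

theorem ring_D {k : ℕ} {z : ℝ × ℝ} (h : z ∈ Rk k) (h' : z ∉ Dk k) : z ∉ D := fun h1 => by
  obtain ⟨l, h2⟩ := mem_iUnion.1 h1
  obtain rfl : k = l := uniq ((mem_Rk.1 h).2.le.trans (by linarith [ρ_pos k]))
    ((mem_Dk.1 h2).2.trans (by linarith [ρ_pos l]))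
  exact h' h2

theorem Rk_pos {k : ℕ} {z : ℝ × ℝ} (h : z ∈ Rk k) : 0 < z.2 := by
  linarith [(abs_lt.1 (mem_Rk.1 h).2).1, ρ_pos k]

theorem Dk_sub (k : ℕ) : Dk k ⊆ Rk k := closedBall_subset_ball (by linarith [ρ_pos k])

theorem D_pos {z : ℝ × ℝ} (h : z ∈ D) : 0 < z.2 := (mem_iUnion.1 h).elim fun k h => Rk_pos (Dk_sub k h)

theorem cl_seq {s : ℕ → Set (ℝ × ℝ)} (h1 : ∀ k, IsClosed (s k)) (h2 : ∀ ε > 0, ∀ᶠ k in atTop, ∀ z ∈ s k, |z.2| < ε) :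
    IsClosed ((⋃ k, s k) ∪ {z | z.2 = 0}) := by
  refine isOpen_compl_iff.1 (isOpen_iff_mem_nhds.2 fun p hp => ?_)
  rw [mem_compl_iff, mem_union, not_or] at hp
  have h3 : 0 < |p.2| / 2 := half_pos (abs_pos.2 hp.2)
  obtain ⟨K, hK⟩ := eventually_atTop.1 (h2 _ h3)
  have h4 : ∀ᶠ z in 𝓝 p, |p.2| / 2 < |z.2| :=
    (continuous_snd.abs).continuousAt.eventually (lt_mem_nhds (half_lt_self (abs_pos.2 hp.2)))
  have h5 : ∀ᶠ z in 𝓝 p, ∀ k ∈ Iio K, z ∉ s k := (eventually_all_finite (finite_Iio K)).2 fun k _ =>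
    (h1 k).isOpen_compl.mem_nhds fun h => hp.1 (mem_iUnion.2 ⟨k, h⟩)
  filter_upwards [h4, h5] with z a b
  rintro (h | h)
  · obtain ⟨k, hk⟩ := mem_iUnion.1 h
    exact (lt_or_ge k K).elim (fun h => b k h hk) fun h => (hK k h z hk).not_gt a
  · rw [show z.2 = 0 from h, abs_zero] at a
    exact a.not_gt h3

theorem ρ_lim : Tendsto ρ atTop (𝓝 0) := ρ_sum.tendsto_atTop_zero

theorem D_cl : IsClosed (D ∪ {z | z.2 = 0}) := cl_seq (fun _ => isClosed_closedBall) fun ε hε => by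
  filter_upwards [ρ_lim.eventually (gt_mem_nhds (show 0 < ε / 11 by positivity))] with k hk z hz
  have := abs_le.1 (mem_Dk.1 hz).2
  rw [abs_lt]
  constructor <;> linarith [ρ_pos k]

theorem kap (x : J) : ∃ κ : ℕ → ℕ, StrictMono κ ∧ ∀ n, |r (κ n) - x.1| < (1 / 2) ^ n := by
  refine extraction_forall_of_frequently (P := fun n k => |r k - x.1| < (1 / 2) ^ n) fun n => frequently_atTop.2 fun N => ?_
  obtain ⟨i, hi⟩ := (denseRange_denseSeq J).exists_dist_lt x (show (0 : ℝ) < (1 / 2) ^ n by positivity)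
  exact ⟨Nat.pair i N, Nat.right_le_pair _ _, by rwa [r, Nat.unpair_pair, abs_sub_comm]⟩

theorem conn : IsPreconnected {z : ℝ × ℝ | 0 < z.2 ∧ z ∉ D} := by
  have hr : ∀ k, 0 ≤ r k ∧ r k ≤ 1 := fun k => (denseSeq J (Nat.unpair k).1).2
  have h1 : ∀ z ∈ D, ∃ k, |z.1 - r k| ≤ ρ k ∧ |z.2 - 10 * ρ k| ≤ ρ k := fun z h =>
    (mem_iUnion.1 h).imp fun _ => mem_Dk.1
  have hT : ∀ z ∈ (univ : Set ℝ) ×ˢ Ioi (2 : ℝ), 0 < z.2 ∧ z ∉ D := fun z h => ⟨by linarith [mem_Ioi.1 h.2], fun h' => by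
    obtain ⟨k, -, h2⟩ := h1 z h'
    linarith [(abs_le.1 h2).2, ρ_le k, mem_Ioi.1 h.2]⟩
  have key : ∀ (A B : Set ℝ) (z : ℝ × ℝ), Convex ℝ A → Convex ℝ B → z.1 ∈ A → (A ∩ B).Nonempty → 0 < z.2 →
      (∀ a ∈ A, (a, z.2) ∉ D) → (∀ y ∈ D, y.1 ∉ B) →
      ∃ t ⊆ {z : ℝ × ℝ | 0 < z.2 ∧ z ∉ D}, ((0 : ℝ), (3 : ℝ)) ∈ t ∧ z ∈ t ∧ IsPreconnected t := by
    rintro A B z a b c ⟨p, d, d'⟩ e f g
    refine ⟨(A ×ˢ {z.2} ∪ B ×ˢ Ioi 0) ∪ univ ×ˢ Ioi 2, union_subset (union_subset ?_ ?_) hT,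
      Or.inr ⟨trivial, by norm_num⟩, Or.inl (Or.inl ⟨c, rfl⟩), IsPreconnected.union (p, 3)
      (Or.inr ⟨d', by norm_num⟩) ⟨trivial, by norm_num⟩ (IsPreconnected.union (p, z.2) ⟨d, rfl⟩ ⟨d', e⟩
      (a.prod (convex_singleton _)).isPreconnected (b.prod (convex_Ioi _)).isPreconnected)
      (convex_univ.prod (convex_Ioi _)).isPreconnected⟩
    · rintro ⟨u, v⟩ ⟨h2, rfl⟩
      exact ⟨e, f u h2⟩
    · exact fun y h => ⟨h.2, fun h' => g y h' h.1⟩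
  refine isPreconnected_of_forall ((0 : ℝ), (3 : ℝ)) fun z hz => ?_
  by_cases h : ∀ a ∈ Iic z.1, (a, z.2) ∉ D
  · refine key _ (Iio (-1)) z (convex_Iic _) (convex_Iio _) self_mem_Iic
      ⟨min z.1 (-2), mem_Iic.2 (min_le_left _ _), mem_Iio.2 ((min_le_right _ _).trans_lt (show (-2 : ℝ) < -1 by norm_num))⟩ hz.1 h fun y hy h' => ?_
    obtain ⟨k, h2, -⟩ := h1 y hy
    linarith [(abs_le.1 h2).1, ρ_le k, mem_Iio.1 h', (hr k).1]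
  · push Not at h
    obtain ⟨a, ha, h⟩ := h
    obtain ⟨k, h2, h3⟩ := h1 _ h
    refine key (Ici z.1) (Ioi 2) z (convex_Ici _) (convex_Ioi _) self_mem_Ici
      ⟨max z.1 3, mem_Ici.2 (le_max_left _ _), mem_Ioi.2 (lt_of_lt_of_le (show (2 : ℝ) < 3 by norm_num) (le_max_right _ _))⟩ hz.1 (fun b hb h' => ?_)
      fun y hy h' => ?_
    · obtain ⟨l, h4, h5⟩ := h1 _ h'
      obtain rfl : k = l := uniq (h3.trans (by linarith [ρ_pos k])) (h5.trans (by linarith [ρ_pos l]))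
      exact hz.2 (mem_iUnion.2 ⟨k, mem_Dk.2 ⟨abs_le.2 ⟨by linarith [(abs_le.1 h2).1, mem_Iic.1 ha],
        by linarith [(abs_le.1 h4).2, mem_Ici.1 hb]⟩, h3⟩⟩)
    · obtain ⟨k, h2, -⟩ := h1 y hy
      linarith [(abs_le.1 h2).2, ρ_le k, mem_Ioi.1 h', (hr k).2]

end Pool.Agent.H.MP_034e58
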