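import Pool.Agent.H.MP_034e58.B

set_option autoImplicit false
open Set Filter Topology TopologicalSpace Metric

namespace Pool.Agent.H.MP_034e58

theorem exp (k : ℕ) (x : ℝ) : ∃ p, |p - x| ≤ 3 * ρ k ∧ ρ k < |p - r k| := by
  have := ρ_pos k
  by_cases h : ρ k < |x - r k|
  · exact ⟨x, by simp; linarith, h⟩
  · have := abs_le.1 (not_lt.1 h)
    exact ⟨r k + 2 * ρ k, abs_le.2 ⟨by linarith, by linarith⟩, lt_abs.2 (Or.inl (by linarith))⟩

theorem loc (k : ℕ) (x u : ℝ) (z : ℝ × ℝ) (h1 : z ∉ Dk k) (h2 : |z.2 - 10 * ρ k| < 2 * ρ k)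
    (h3 : |z.1 - x| ≤ u) (h4 : 3 * ρ k ≤ u) : ∃ g : ℝ → ℝ, Continuous g ∧ (∀ t, |g t| ≤ 2 * u) ∧
      (∀ t, 3 * ρ k ≤ |t - 10 * ρ k| → g t = 0) ∧ (∀ t, (x + g t, t) ∉ Dk k) ∧ x + g z.2 = z.1 := by
  have h0 := ρ_pos k
  have c1 : IsClosed {t : ℝ | 3 * ρ k ≤ |t - 10 * ρ k|} := isClosed_le continuous_const (by fun_prop)
  have c2 : IsClosed {t : ℝ | |t - 10 * ρ k| ≤ ρ k} := isClosed_le (by fun_prop) continuous_const
  have bd : ∀ (p : ℝ) (φ : C(ℝ, ℝ)), |p| ≤ u → (∀ t, φ t ∈ Icc (0 : ℝ) 1) → ∀ t, |p * φ t| ≤ u := fun p φ a b t => by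
    rw [abs_mul, abs_of_nonneg (b t).1]
    exact (mul_le_of_le_one_right (abs_nonneg _) (b t).2).trans a
  by_cases h : |z.2 - 10 * ρ k| ≤ ρ k
  · obtain ⟨φ, a, b, c⟩ := exists_continuous_zero_one_of_isClosed c1 c2
      (disjoint_left.2 fun t p q => by linarith [mem_ofPred.1 p, mem_ofPred.1 q])
    refine ⟨fun t => (z.1 - x) * φ t, by fun_prop, fun t => (bd _ φ h3 c t).trans (by linarith), fun t ht => by
      simp [a ht], fun t ht => h1 (mem_Dk.2 ⟨?_, h⟩), by simp [b h]⟩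
    simpa [b (mem_Dk.1 ht).2] using (mem_Dk.1 ht).1
  · obtain ⟨p, p1, p2⟩ := exp k x
    obtain ⟨φ, a, b, c⟩ := exists_continuous_zero_one_of_isClosed (c1.union (isClosed_singleton (x := z.2))) c2
      (disjoint_left.2 fun t p q => p.elim (fun p => by linarith [mem_ofPred.1 p, mem_ofPred.1 q]) fun p => h (p ▸ q))
    obtain ⟨χ, a', b', c'⟩ := exists_continuous_zero_one_of_isClosed (c1.union c2) (isClosed_singleton (x := z.2))
      (disjoint_left.2 fun t p q => p.elim (fun p => by linarith [mem_ofPred.1 (q ▸ p)]) fun p => h (q ▸ p))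
    refine ⟨fun t => (p - x) * φ t + (z.1 - x) * χ t, by fun_prop, fun t => (abs_add_le _ _).trans (by
      linarith [bd _ φ (p1.trans h4) c t, bd _ χ h3 c' t]), fun t ht => by simp [a (Or.inl ht), a' (Or.inl ht)],
      fun t ht => p2.not_ge ?_, by simp [a (Or.inr rfl), b' rfl]⟩
    simpa [b (mem_Dk.1 ht).2, a' (Or.inr (mem_Dk.1 ht).2)] using (mem_Dk.1 ht).1

theorem cur1 (x : ℝ) {κ : ℕ → ℕ} (hκ : StrictMono κ) (h : ∀ n, |r (κ n) - x| < (1 / 2) ^ n) (z : ℕ → ℝ × ℝ)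
    (hz : ∀ k, z k ∈ Rk k \ Dk k) : ∃ c : ℝ → ℝ, Continuous c ∧ c 0 = x ∧ (∀ t, (c t, t) ∉ D) ∧
      ∀ n, c (z (κ n)).2 = (z (κ n)).1 := by
  let v : ℕ → ℝ := Function.extend κ (fun n => (1 / 2) ^ n) 0
  have hv : Summable v := (summable_extend_zero hκ.injective).2 summable_geometric_two
  have H : ∀ k, ∃ g : ℝ → ℝ, Continuous g ∧ (∀ t, |g t| ≤ 2 * (3 * ρ k + v k)) ∧
      (∀ t, 3 * ρ k ≤ |t - 10 * ρ k| → g t = 0) ∧ (∀ t, (x + g t, t) ∉ Dk k) ∧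
      ∀ n, κ n = k → x + g (z k).2 = (z k).1 := fun k => by
    have h0 := ρ_pos k
    by_cases hk : ∃ n, κ n = k
    · obtain ⟨n, rfl⟩ := hk
      have h1 : v (κ n) = (1 / 2) ^ n := hκ.injective.extend_apply _ _ _
      have h2 := abs_lt.1 (mem_Rk.1 (hz (κ n)).1).1
      have h3 := abs_lt.1 (h n)
      obtain ⟨g, a, b, c, d, e⟩ := loc (κ n) x (3 * ρ (κ n) + v (κ n)) _ (hz _).2 (mem_Rk.1 (hz _).1).2
        (abs_le.2 ⟨by linarith, by linarith⟩) (by linarith)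
      exact ⟨g, a, b, c, d, fun _ _ => e⟩
    · have h1 : v k = 0 := Function.extend_apply' _ _ _ hk
      obtain ⟨p, p1, p2⟩ := exp k x
      obtain ⟨g, a, b, c, d, -⟩ := loc k x (3 * ρ k + v k) (p, 10 * ρ k) (fun h => p2.not_ge (mem_Dk.1 h).1)
        (by simpa using h0) (by linarith) (by linarith)
      exact ⟨g, a, b, c, d, fun n hn => absurd ⟨n, hn⟩ hk⟩
  choose g a b c d e using H
  have h1 : ∀ k t, |t - 10 * ρ k| ≤ 3 * ρ k → ∑' l, g l t = g k t := fun k t ht =>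
    tsum_eq_single k fun l hl => c l t (le_of_not_gt fun h => hl (uniq h.le ht))
  refine ⟨fun t => x + ∑' l, g l t, continuous_const.add
    (continuous_tsum a (((ρ_sum.mul_left 3).add hv).mul_left 2) b), ?_, fun t ht => ?_, fun n => ?_⟩
  · have : ∀ l, g l 0 = 0 := fun l => c l 0 (le_abs.2 (Or.inr (by linarith [ρ_pos l])))
    simp [this]
  · obtain ⟨k, hk⟩ := mem_iUnion.1 ht
    beta_reduce at hk
    rw [h1 k t ((mem_Dk.1 hk).2.trans (by linarith [ρ_pos k]))] at hk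
    exact d k t hk
  · beta_reduce
    rw [h1 (κ n) _ ((mem_Rk.1 (hz _).1).2.le.trans (by linarith [ρ_pos (κ n)]))]
    exact e _ n rfl

theorem z_lim {z : ℕ → ℝ × ℝ} (hz : ∀ k, z k ∈ Rk k \ Dk k) : Tendsto (fun k => (z k).2) atTop (𝓝 0) := by
  have := ρ_lim.const_mul 12
  rw [mul_zero] at this
  exact squeeze_zero (fun k => (Rk_pos (hz k).1).le)
    (fun k => by linarith [(abs_lt.1 (mem_Rk.1 (hz k).1).2).2]) this

theorem cur2 (x : ℝ) {κ : ℕ → ℕ} (hκ : StrictMono κ) (h : ∀ n, |r (κ n) - x| < (1 / 2) ^ n) (z y : ℕ → ℝ × ℝ)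
    (hz : ∀ k, z k ∈ Rk k \ Dk k) (hy : ∀ k j, y k ≠ z j) (h0 : ∀ k, (y k).2 ≠ 0) :
    ∃ c : ℝ → ℝ, Continuous c ∧ c 0 = x ∧ (∀ t, (c t, t) ∉ D) ∧
      (∀ n, c (z (κ n)).2 = (z (κ n)).1) ∧ ∀ k, c (y k).2 ≠ (y k).1 := by
  obtain ⟨c, a, b, d, e⟩ := cur1 x hκ h z hz
  let Z : Set ℝ := insert 0 (range fun n => (z (κ n)).2)
  have hZ : IsClosed Z := ((z_lim hz).comp hκ.tendsto_atTop).isCompact_insert_range.isClosed
  let δ : ℝ → ℝ := fun t => min (infDist t Z) (infDist (c t, t) (D ∪ {z | z.2 = 0}) / 2)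
  have h1 : ∀ t, 0 ≤ δ t := fun t => le_min infDist_nonneg (div_nonneg infDist_nonneg zero_le_two)
  have h2 : ∀ t ∈ Z, δ t = 0 := fun t ht =>
    le_antisymm ((min_le_left _ _).trans_eq (infDist_zero_of_mem ht)) (h1 t)
  have h3 : ∀ t, t ≠ 0 → 0 < infDist (c t, t) (D ∪ {z | z.2 = 0}) := fun t ht =>
    (D_cl.notMem_iff_infDist_pos ⟨(0, 0), Or.inr rfl⟩).1 fun h => h.elim (d t) ht
  have h4 : (⋃ k, {l : ℝ | c (y k).2 + l * δ (y k).2 = (y k).1}).Countable := countable_iUnion fun k => by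
    refine Set.Subsingleton.countable fun l p l' q => ?_
    by_cases h5 : (y k).2 ∈ Z
    · rw [mem_ofPred, h2 _ h5, mul_zero, add_zero] at p
      obtain ⟨n, hn⟩ := h5.resolve_left (h0 k)
      exact absurd (Prod.ext (by rw [← p, ← hn]; exact e n) hn.symm) (hy k (κ n))
    · have : 0 < δ (y k).2 := lt_min ((hZ.notMem_iff_infDist_pos ⟨0, Or.inl rfl⟩).1 h5) (half_pos (h3 _ (h0 k)))
      exact mul_right_cancel₀ this.ne' (add_left_cancel (p.trans q.symm))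
  obtain ⟨l, l1, l2⟩ : ∃ l ∈ Icc (0 : ℝ) 1, l ∉ ⋃ k, {l : ℝ | c (y k).2 + l * δ (y k).2 = (y k).1} := by
    by_contra! h5
    have := Cardinal.le_aleph0_iff_set_countable.2 (h4.mono h5)
    rw [Cardinal.mk_Icc_real one_pos] at this
    exact this.not_gt Cardinal.aleph0_lt_continuum
  refine ⟨fun t => c t + l * δ t, a.add (continuous_const.mul ((continuous_infDist_pt Z).min
    (((continuous_infDist_pt _).comp (a.prodMk continuous_id)).div_const 2))), by simp [h2 0 (Or.inl rfl), b],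
    fun t ht => ?_, fun n => by simp [h2 _ (Or.inr ⟨n, rfl⟩), e], fun k hk => l2 (mem_iUnion.2 ⟨k, hk⟩)⟩
  have h5 := infDist_le_dist_of_mem (x := (c t, t)) (show _ ∈ D ∪ {z | z.2 = 0} from Or.inl ht)
  have h6 : l * δ t ≤ infDist (c t, t) (D ∪ {z | z.2 = 0}) / 2 :=
    (mul_le_of_le_one_left (h1 t) l1.2).trans (min_le_right _ _)
  have h7 := h3 t (D_pos ht).ne'
  rw [dist_prod_same_right, Real.dist_eq, sub_add_cancel_left, abs_neg, abs_of_nonneg (mul_nonneg l1.1 (h1 t))] at h5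
  linarith

structure Cv (x : ℝ) (c w : ℝ → ℝ) : Prop where
  cc : Continuous c
  cw : Continuous w
  c0 : c 0 = x
  w0 : w 0 = 0
  wp : ∀ t, t ≠ 0 → 0 < w t
  av : ∀ a t, |a| * |t| < 1 → (c t + a * w t, t) ∉ D

theorem curve (x : ℝ) {κ : ℕ → ℕ} (hκ : StrictMono κ) (h : ∀ n, |r (κ n) - x| < (1 / 2) ^ n) (z y : ℕ → ℝ × ℝ)
    (hz : ∀ k, z k ∈ Rk k \ Dk k) (hy : ∀ k j, y k ≠ z j) (h0 : ∀ k, (y k).2 ≠ 0) :
    ∃ c w : ℝ → ℝ, Cv x c w ∧ (∀ n, c (z (κ n)).2 = (z (κ n)).1) ∧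
      (Tendsto (fun n => (y (κ n)).2) atTop (𝓝 0) → ∀ n a, c (y (κ n)).2 + a * w (y (κ n)).2 = (y (κ n)).1 →
        1 ≤ |a| * |(y (κ n)).2|) := by
  obtain ⟨c, a, b, d, e, f⟩ := cur2 x hκ h z y hz hy h0
  obtain ⟨T, h1, h2, h3, h4⟩ : ∃ T : Set (ℝ × ℝ), IsClosed T ∧ D ∪ {z | z.2 = 0} ⊆ T ∧
      (∀ t, t ≠ 0 → (c t, t) ∉ T) ∧ (Tendsto (fun n => (y (κ n)).2) atTop (𝓝 0) → ∀ n, y (κ n) ∈ T) := by
    by_cases h5 : Tendsto (fun n => (y (κ n)).2) atTop (𝓝 0)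
    · refine ⟨(D ∪ {z | z.2 = 0}) ∪ ((⋃ n, {y (κ n)}) ∪ {z | z.2 = 0}), D_cl.union
        (cl_seq (fun _ => isClosed_singleton) fun ε hε => ?_), subset_union_left, fun t ht => ?_,
        fun _ n => Or.inr (Or.inl (mem_iUnion.2 ⟨n, rfl⟩))⟩
      · filter_upwards [h5.abs.eventually (gt_mem_nhds (show |(0 : ℝ)| < ε by simpa))] with n hn
        rintro _ rfl
        exact hn
      · rintro ((h6 | h6) | h6 | h6)
        exacts [d t h6, ht h6, (mem_iUnion.1 h6).elim fun n hn => f (κ n) (by rw [← hn]), ht h6]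
    · exact ⟨_, D_cl, Subset.rfl, fun t ht h => h.elim (d t) ht, fun h => absurd h h5⟩
  have h5 : ∀ t, t ≠ 0 → 0 < infDist (c t, t) T := fun t ht =>
    (h1.notMem_iff_infDist_pos ⟨(0, 0), h2 (Or.inr rfl)⟩).1 (h3 t ht)
  have h6 : ∀ a t, t ≠ 0 → (c t + a * (|t| * infDist (c t, t) T), t) ∈ T → 1 ≤ |a| * |t| := fun a t ht h => by
    have h7 := infDist_le_dist_of_mem (x := (c t, t)) h
    rw [dist_prod_same_right, Real.dist_eq, sub_add_cancel_left, abs_neg, abs_mul, abs_mul, abs_abs,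
      abs_of_pos (h5 t ht), ← mul_assoc] at h7
    exact (le_mul_iff_one_le_left (h5 t ht)).1 h7
  refine ⟨c, fun t => |t| * infDist (c t, t) T, ⟨a, continuous_abs.mul ((continuous_infDist_pt _).comp
    (a.prodMk continuous_id)), b, by simp, fun t ht => mul_pos (abs_pos.2 ht) (h5 t ht),
    fun a t p q => p.not_ge (h6 a t (D_pos q).ne' (h2 (Or.inl q)))⟩, e, fun p n a q => h6 a _ (h0 _) ?_⟩
  rw [show c _ + a * (|_| * _) = _ from q]
  exact h4 p n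

end Pool.Agent.H.MP_034e58
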