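import Pool.Agent.H.MP_034e58.C

set_option autoImplicit false
open Set Filter Topology TopologicalSpace Metric

namespace Pool.Agent.H.MP_034e58

structure Dat : Type 1 where
  ι : Type
  x : ι → ℝ
  c : ι → ℝ → ℝ
  w : ι → ℝ → ℝ
  inj : Function.Injective x
  cv : ∀ i, Cv (x i) (c i) (w i)
  i0 : ι

def M (d : Dat) : Type := {z : ℝ × ℝ // z.2 ≠ 0} ⊕ d.ι × ℝ

variable {d : Dat}

def pr (i : d.ι) (p : ℝ × ℝ) : ℝ × ℝ := (d.c i p.2 + p.1 * d.w i p.2, p.2)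

noncomputable def θ (i : d.ι) (z : ℝ × ℝ) : ℝ × ℝ := ((z.1 - d.c i z.2) / d.w i z.2, z.2)

noncomputable def ψ (i : d.ι) (p : ℝ × ℝ) : M d := if h : p.2 = 0 then .inr (i, p.1) else .inl ⟨pr i p, h⟩

def π : M d → ℝ × ℝ := Sum.elim Subtype.val fun q => (d.x q.1, 0)

noncomputable instance : TopologicalSpace (M d) := ⨆ i, coinduced (ψ i) inferInstance

theorem op_iff {W : Set (M d)} : IsOpen W ↔ ∀ i, IsOpen (ψ i ⁻¹' W) := isOpen_iSup_iff

theorem ψ_cont (i : d.ι) : Continuous (ψ i) := continuous_def.2 fun _ h => op_iff.1 h i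

theorem pr_cont (i : d.ι) : Continuous (pr i) :=
  (((d.cv i).cc.comp continuous_snd).add (continuous_fst.mul ((d.cv i).cw.comp continuous_snd))).prodMk
    continuous_snd

theorem θ_pr (i : d.ι) {p : ℝ × ℝ} (h : p.2 ≠ 0) : θ i (pr i p) = p :=
  Prod.ext (by simp [θ, pr, ((d.cv i).wp _ h).ne']) rfl

theorem pr_θ (i : d.ι) {p : ℝ × ℝ} (h : p.2 ≠ 0) : pr i (θ i p) = p :=
  Prod.ext (by simp [θ, pr, ((d.cv i).wp _ h).ne']) rfl

theorem π_ψ (i : d.ι) (p : ℝ × ℝ) : π (ψ i p) = pr i p := by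
  unfold ψ
  split_ifs with h
  · exact Prod.ext (by simp [π, pr, h, (d.cv i).c0, (d.cv i).w0]) h.symm
  · rfl

theorem π_cont : Continuous (π (d := d)) :=
  continuous_iSup_dom.2 fun i => continuous_coinduced_dom.2 ((pr_cont i).congr fun p => (π_ψ i p).symm)

theorem ψ_θ (i : d.ι) (z : {z : ℝ × ℝ // z.2 ≠ 0}) : ψ i (θ i z.1) = .inl z := by
  rw [ψ, dif_neg (show (θ i z.1).2 ≠ 0 from z.2)]
  exact congrArg Sum.inl (Subtype.ext (pr_θ i z.2))

theorem ψ0 (i : d.ι) (a : ℝ) : ψ i (a, 0) = .inr (i, a) := dif_pos rfl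

theorem π_inj {m m' : M d} (h : (π m).2 ≠ 0) (h' : π m = π m') : m = m' := by
  rcases m with z | q; swap
  · exact absurd rfl h
  rcases m' with z' | q'
  · exact congrArg Sum.inl (Subtype.ext h')
  · exact absurd (congrArg Prod.snd h') h

theorem ψ_eq {i j : d.ι} {p q : ℝ × ℝ} (h : ψ i p = ψ j q) : (q.2 ≠ 0 ∧ θ i (pr j q) = p) ∨ (j = i ∧ q = p) := by
  have h1 : pr i p = pr j q := by rw [← π_ψ, h, π_ψ]
  have h2 : p.2 = q.2 := (congrArg Prod.snd h1 :)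
  by_cases h3 : q.2 = 0
  · rw [ψ, ψ, dif_pos h3, dif_pos (h2.trans h3)] at h
    obtain ⟨h4, h5⟩ := Prod.ext_iff.1 (Sum.inr.inj h)
    exact Or.inr ⟨h4.symm, Prod.ext h5.symm h2.symm⟩
  · exact Or.inl ⟨h3, h1 ▸ θ_pr i (h2 ▸ h3)⟩

theorem θ_cont (i : d.ι) : ContinuousOn (θ i) {z | z.2 ≠ 0} :=
  ((continuous_fst.sub ((d.cv i).cc.comp continuous_snd)).continuousOn.div
    ((d.cv i).cw.comp continuous_snd).continuousOn fun _ h => ((d.cv i).wp _ h).ne').prodMk continuousOn_snd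

theorem ψ_emb (i : d.ι) : IsOpenEmbedding (ψ i) := by
  refine .of_continuous_injective_isOpenMap (ψ_cont i) (fun p q h => (ψ_eq h).elim
    (fun h => h.2.symm.trans (θ_pr i h.1)) fun h => h.2.symm) fun N hN => op_iff.2 fun j => ?_
  have : ψ j ⁻¹' (ψ i '' N) = ({q : ℝ × ℝ | q.2 ≠ 0} ∩ (θ i ∘ pr j) ⁻¹' N) ∪ {q | j = i ∧ q ∈ N} := by
    ext q
    constructor
    · rintro ⟨p, h1, h2⟩
      rcases ψ_eq h2 with ⟨h3, rfl⟩ | ⟨h3, rfl⟩
      exacts [Or.inl ⟨h3, h1⟩, Or.inr ⟨h3, h1⟩]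
    · rintro (⟨h1, h2⟩ | ⟨rfl, h2⟩)
      · exact ⟨_, h2, (ψ_θ i ⟨pr j q, h1⟩).trans (show ψ j q = _ from dif_neg h1).symm⟩
      · exact ⟨q, h2, rfl⟩
  rw [this]
  refine (ContinuousOn.isOpen_inter_preimage ((θ_cont i).comp (pr_cont j).continuousOn fun _ h => h)
    (isOpen_ne_fun continuous_snd continuous_const) hN).union ?_
  by_cases h : j = i <;> simp [h, hN]

theorem ψ_surj (m : M d) : ∃ i p, ψ i p = m := by
  rcases m with z | ⟨i, a⟩
  exacts [⟨d.i0, _, ψ_θ _ z⟩, ⟨i, _, ψ0 i a⟩]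

instance : T2Space (M d) := ⟨fun m m' h => by
  by_cases h1 : π m = π m'
  · rcases m with z | ⟨i, a⟩
    · exact absurd (π_inj (m := .inl z) z.2 h1) h
    rcases m' with z | ⟨j, b⟩
    · exact absurd (π_inj (m := .inl z) z.2 h1.symm).symm h
    obtain rfl : i = j := d.inj (congrArg Prod.fst h1)
    rw [← ψ0, ← ψ0] at h ⊢
    exact separated_by_isOpenEmbedding (ψ_emb i) fun h' => h (congrArg _ h')
  · exact separated_by_continuous π_cont h1⟩

theorem P_dense : Dense {m : M d | (π m).2 ≠ 0} := fun m => by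
  obtain ⟨i, p, rfl⟩ := ψ_surj m
  have h : p ∈ closure ((univ : Set ℝ) ×ˢ ({0}ᶜ : Set ℝ)) := dense_univ.prod (dense_compl_singleton 0) p
  exact map_mem_closure (ψ_cont i) h fun q hq => by rw [mem_ofPred, π_ψ]; exact hq.2

theorem ψ_dense (i : d.ι) : DenseRange (ψ i) := P_dense.mono fun m hm => by
  rcases m with z | q
  exacts [⟨_, ψ_θ i z⟩, absurd rfl hm]

instance : SeparableSpace (M d) := (ψ_dense d.i0).separableSpace (ψ_cont _)

instance : ConnectedSpace (M d) :=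
  { (ψ_dense d.i0).preconnectedSpace (ψ_cont _) with toNonempty := ⟨.inr (d.i0, 0)⟩ }

noncomputable def eu : EuclideanSpace ℝ (Fin 2) ≃ₜ ℝ × ℝ :=
  (EuclideanSpace.equiv (Fin 2) ℝ).toHomeomorph.trans Homeomorph.finTwoArrow

noncomputable instance : ChartedSpace (EuclideanSpace ℝ (Fin 2)) (M d) where
  atlas := univ
  chartAt m := (((ψ_emb (ψ_surj m).choose).comp eu.isOpenEmbedding).toOpenPartialHomeomorph _).symm
  mem_chart_source m := by
    obtain ⟨p, hp⟩ := (ψ_surj m).choose_spec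
    rw [OpenPartialHomeomorph.symm_source, IsOpenEmbedding.toOpenPartialHomeomorph_target]
    exact ⟨eu.symm p, by simpa using hp⟩
  chart_mem_atlas _ := trivial

def U (d : Dat) : Set (M d) := {m | π m ∉ D}

theorem U_open : IsOpen (U d) := op_iff.2 fun i => by
  have : ψ i ⁻¹' U d = {p | |p.1| * |p.2| < 1} ∪ pr i ⁻¹' (D ∪ {z | z.2 = 0})ᶜ := by
    ext p
    rw [mem_preimage, U, mem_ofPred, π_ψ]
    refine ⟨fun h => ?_, fun h => h.elim ((d.cv i).av _ _) fun h h' => h (Or.inl h')⟩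
    by_cases h1 : p.2 = 0
    · exact Or.inl (by simp [h1])
    · exact Or.inr fun h2 => h2.elim h h1
  rw [this]
  exact (isOpen_lt (by fun_prop) continuous_const).union (D_cl.isOpen_compl.preimage (pr_cont i))

end Pool.Agent.H.MP_034e58
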