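import Pool.Agent.H.MP_034e58.D

set_option autoImplicit false
open Set Filter Topology TopologicalSpace Metric

namespace Pool.Agent.H.MP_034e58

variable {d : Dat}

theorem pre {S : Set (ℝ × ℝ)} (h : ∀ z ∈ S, z.2 ≠ 0) (hS : IsPreconnected S) : IsPreconnected (π (d := d) ⁻¹' S) := by
  have : π ⁻¹' S = (ψ d.i0 ∘ θ d.i0) '' S := by
    ext m
    constructor
    · intro hm
      exact ⟨_, hm, (π_inj (h _ hm) (by rw [Function.comp, π_ψ, pr_θ _ (h _ hm)])).symm⟩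
    · rintro ⟨z, hz, rfl⟩
      rwa [mem_preimage, Function.comp, π_ψ, pr_θ _ (h _ hz)]
  rw [this]
  exact hS.image _ ((ψ_cont _).comp_continuousOn ((θ_cont _).mono h))

theorem U0 (i : d.ι) (t : ℝ) : ψ i (0, t) ∈ U d := by
  rw [U, mem_ofPred, π_ψ]
  exact (d.cv i).av 0 t (by simp)

theorem U_conn : IsPreconnected (U d) := by
  have hc : Continuous fun t : ℝ => ψ d.i0 (0, t) := (ψ_cont _).comp (by fun_prop)
  have h1 := pre (d := d) (fun z h => h.1.ne') conn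
  have h2 := pre (d := d) (S := univ ×ˢ Iio 0) (fun z h => h.2.ne) (convex_univ.prod (convex_Iio _)).isPreconnected
  have h3 : ψ d.i0 (0, 0) ∈ closure (π ⁻¹' {z : ℝ × ℝ | 0 < z.2 ∧ z ∉ D}) :=
    map_mem_closure (f := fun t : ℝ => ψ d.i0 (0, t)) hc (show (0 : ℝ) ∈ closure (Ioi 0) by simp) fun t ht => ⟨by rw [π_ψ]; exact ht, U0 _ t⟩
  have h4 : ψ d.i0 (0, 0) ∈ closure (π ⁻¹' (univ ×ˢ Iio 0)) :=
    map_mem_closure (f := fun t : ℝ => ψ d.i0 (0, t)) hc (show (0 : ℝ) ∈ closure (Iio 0) by simp) fun t ht => ⟨trivial, by rw [π_ψ]; exact ht⟩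
  refine ((h1.subset_closure (subset_insert _ _) (insert_subset h3 subset_closure)).union _ (mem_insert _ _)
    (mem_insert _ _) (h2.subset_closure (subset_insert _ _) (insert_subset h4 subset_closure))).subset_closure
    (union_subset (insert_subset (U0 _ _) fun m h => h.2) (insert_subset (U0 _ _) fun m h h' =>
      (D_pos h').not_gt h.2)) ((P_dense.open_subset_closure_inter U_open).trans (closure_mono fun m h => ?_))
  rcases lt_or_gt_of_ne h.2 with h5 | h5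
  exacts [Or.inr (Or.inr ⟨trivial, h5⟩), Or.inl (Or.inr ⟨h5, h.1⟩)]

theorem π_sur {z : ℝ × ℝ} (h : z.2 ≠ 0) : ∃ m : M d, π m = z := ⟨.inl ⟨z, h⟩, rfl⟩

theorem ring_pt (k : ℕ) : (r k + 3 / 2 * ρ k, 10 * ρ k) ∈ Rk k \ Dk k := by
  have := ρ_pos k
  exact ⟨mem_Rk.2 ⟨abs_lt.2 ⟨by linarith, by linarith⟩, by simpa⟩, fun h => by
    linarith [(abs_le.1 (mem_Dk.1 h).1).2]⟩

theorem moved {e : U d → M d} (he : IsOpenEmbedding e) (hd : DenseRange e) (k : ℕ) :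
    {u : U d | π u.1 ∈ Rk k ∧ (π (e u)).2 ≠ 0 ∧ e u ≠ u.1}.Infinite := by
  have : PreconnectedSpace (U d) := Subtype.preconnectedSpace U_conn
  have c1 : IsOpen {u : U d | π u.1 ∈ Rk k} := isOpen_ball.preimage (π_cont.comp continuous_subtype_val)
  have c2 : IsClosed {u : U d | e u = u.1} := isClosed_eq he.continuous continuous_subtype_val
  obtain ⟨m0, hm0⟩ := π_sur (d := d) (Rk_pos (ring_pt k).1).ne'
  let u0 : U d := ⟨m0, show π m0 ∉ D from hm0 ▸ ring_D (ring_pt k).1 (ring_pt k).2⟩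
  have : Nontrivial (U d) := ⟨u0, ⟨_, U0 d.i0 0⟩, fun h => by
    have := congrArg (fun u : U d => (π u.1).2) h
    simp only [u0, hm0, π_ψ, pr] at this
    linarith [ρ_pos k]⟩
  have : ConnectedSpace (U d) := ⟨⟨u0⟩⟩
  obtain h | ⟨u, hu⟩ := {u : U d | π u.1 ∈ Rk k ∧ (π (e u)).2 ≠ 0 ∧ e u ≠ u.1}.eq_empty_or_nonempty; swap
  · exact infinite_of_mem_nhds u ((c1.inter ((isOpen_ne_fun (continuous_snd.comp (π_cont.comp he.continuous))
      continuous_const).inter c2.isOpen_compl)).mem_nhds hu)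
  exfalso
  have h1 : ∀ u : U d, π u.1 ∈ Rk k → e u = u.1 := fun u hu => c2.closure_subset (closure_mono
    (s := {u : U d | π u.1 ∈ Rk k} ∩ e ⁻¹' {m | (π m).2 ≠ 0})
    (fun v hv => by_contra fun h' => eq_empty_iff_forall_notMem.1 h v ⟨hv.1, hv.2, h'⟩)
    ((P_dense.preimage he.isOpenMap).open_subset_closure_inter c1 hu))
  have h2 : IsClopen {u : U d | π (e u) ∈ Dk k} := by
    refine ⟨isClosed_closedBall.preimage (π_cont.comp he.continuous), isOpen_iff_mem_nhds.2 fun u hu => ?_⟩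
    have h3 : e u ≠ u.1 := fun h => u.2 (mem_iUnion.2 ⟨k, h ▸ hu⟩)
    filter_upwards [c2.isOpen_compl.mem_nhds h3,
      (isOpen_ball.preimage (π_cont.comp he.continuous)).mem_nhds (Dk_sub k hu)] with v a b
    by_contra h4
    have h5 := h1 ⟨e v, ring_D b h4⟩ b
    exact a (congrArg Subtype.val (he.injective h5))
  rcases isClopen_iff.1 h2 with h3 | h3
  · obtain ⟨m, hm⟩ := π_sur (d := d) (Rk_pos (Dk_sub k (mem_closedBall_self (ρ_pos k).le))).ne'
    obtain ⟨u, hu⟩ := hd.exists_mem_open (isOpen_ball.preimage π_cont)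
      ⟨m, show π m ∈ ball (ctr k) (ρ k) from hm ▸ mem_ball_self (ρ_pos k)⟩
    exact eq_empty_iff_forall_notMem.1 h3 u (ball_subset_closedBall hu)
  · have h4 : π (e u0) ∈ Dk k := h3.ge (mem_univ u0)
    rw [h1 u0 (hm0 ▸ (ring_pt k).1)] at h4
    exact (ring_pt k).2 (hm0 ▸ h4)

theorem pick {e : U d → M d} (he : IsOpenEmbedding e) (hd : DenseRange e) : ∃ u : ℕ → U d,
    (∀ k, π (u k).1 ∈ Rk k \ Dk k) ∧ (∀ k j, π (e (u k)) ≠ π (u j).1) ∧ ∀ k, (π (e (u k))).2 ≠ 0 := by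
  obtain ⟨u, hu⟩ := seq (fun k (u : U d) => π u.1 ∈ Rk k ∧ (π (e u)).2 ≠ 0 ∧ e u ≠ u.1)
    (fun u v => e u ≠ v.1 ∧ e v ≠ u.1) fun k s hs => by
      obtain ⟨v, h1, h2⟩ := (moved he hd k).exists_notMem_finite
        (((hs.image e).preimage Subtype.val_injective.injOn).union
          ((hs.image Subtype.val).preimage he.injective.injOn))
      exact ⟨v, h1, fun u hu => ⟨fun h => h2 (Or.inl ⟨u, hu, h⟩), fun h => h2 (Or.inr ⟨u, hu, h.symm⟩)⟩⟩
  refine ⟨u, fun k => ⟨(hu k).1.1, fun h => (u k).2 (mem_iUnion.2 ⟨k, h⟩)⟩, fun k j h => ?_, fun k => (hu k).1.2.1⟩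
  have h1 := π_inj (hu k).1.2.1 h
  rcases lt_trichotomy k j with h2 | rfl | h2
  exacts [((hu j).2 k h2).1 h1, (hu k).1.2.2 h1, ((hu k).2 j h2).2 h1]

theorem cnt {e : U d → M d} (he : IsOpenEmbedding e) (j : d.ι) :
    {i | e ⟨_, U0 i 0⟩ ∈ range (ψ j)}.Countable := by
  have H : ∀ i : {i | e ⟨_, U0 i 0⟩ ∈ range (ψ j)}, ∃ B ∈ countableBasis (ℝ × ℝ), ∃ p ∈ B,
      ψ j p = e ⟨_, U0 i.1 0⟩ ∧ B ⊆ ψ j ⁻¹' (e '' (Subtype.val ⁻¹' range (ψ i.1))) := fun ⟨i, p, hp⟩ => by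
    obtain ⟨B, a, b, c⟩ := (isBasis_countableBasis (ℝ × ℝ)).exists_subset_of_mem_open (a := p)
      (show p ∈ ψ j ⁻¹' (e '' (Subtype.val ⁻¹' range (ψ i))) from ⟨_, ⟨_, rfl⟩, hp.symm⟩)
      ((he.isOpenMap _ ((ψ_emb i).isOpen_range.preimage continuous_subtype_val)).preimage (ψ_cont j))
    exact ⟨B, a, p, b, hp, c⟩
  choose B a p b c f using H
  have := (countable_countableBasis (ℝ × ℝ)).to_subtype
  refine Function.Injective.countable (f := fun i => (⟨B i, a i⟩ : countableBasis (ℝ × ℝ))) fun i i' h => ?_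
  obtain ⟨u, ⟨q, h1⟩, h2⟩ := f i' ((show B i = B i' from congrArg Subtype.val h).subset (b i))
  have h3 := congrArg Subtype.val (he.injective (h2.trans (c i)))
  rcases ψ_eq (h1.trans h3) with h4 | h4
  exacts [absurd rfl h4.1, Subtype.ext h4.1]

end Pool.Agent.H.MP_034e58
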