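import Pool.Agent.H.MP_034e58.E

set_option autoImplicit false
open Set Filter Topology TopologicalSpace Metric Cardinal

namespace Pool.Agent.H.MP_034e58

def Cd : Type := {E : ℕ → (ℝ × ℝ) × (ℝ × ℝ) //
  (∀ k, (E k).1 ∈ Rk k \ Dk k) ∧ (∀ k j, (E k).2 ≠ (E j).1) ∧ ∀ k, (E k).2.2 ≠ 0}

instance : Nonempty Cd := ⟨⟨fun k => ((r k + 3 / 2 * ρ k, 10 * ρ k), (0, -1)), ring_pt,
  fun _ j h => by linarith [ρ_pos j, (Prod.ext_iff.1 h).2], fun _ => by norm_num⟩⟩

theorem cb {α β : Type} (f : α → β) (Y : Set α) (h : #Y < 𝔠) (s : α → Set α) (hs : ∀ j, (s j).Countable) :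
    #(f '' ⋃ j ∈ Y, s j) < 𝔠 :=
  mk_image_le.trans_lt ((mk_biUnion_le _ _).trans_lt (mul_lt_of_lt aleph0_le_continuum h
    ((ciSup_le' fun j : Y => le_aleph0_iff_set_countable.2 (hs j.1)).trans_lt aleph0_lt_continuum)))

theorem main : ∃ d : Dat, ∀ e : U d → M d, IsOpenEmbedding e → ¬DenseRange e := by
  classical
  choose κ hκ hκ' using kap
  let φ : Cd → J → Option J := fun E x =>
    if h : ∃ y : J, Tendsto (fun n => (E.1 (κ x n)).2) atTop (𝓝 (y.1, 0)) then some h.choose else none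
  obtain ⟨A, lab, hA⟩ := assign (E := Cd) (S := J) ((mk_subtype_le _).trans (by simp [mk_real])) (mk_Icc_real one_pos) φ
  choose c w h1 h2 h3 using fun (E : Cd) (x : J) => curve x.1 (hκ x) (hκ' x) _ _ E.2.1 E.2.2.1 E.2.2.2
  obtain ⟨i0⟩ : Nonempty A := by
    rcases hA (Classical.arbitrary Cd) with ⟨x, h, -⟩ | ⟨Y, -, h⟩
    · exact ⟨⟨x, h⟩⟩
    · obtain ⟨x, h, -⟩ := mk_ne_zero_iff.1 (continuum_pos.trans_le h).ne'
      exact ⟨⟨x, h⟩⟩
  let d : Dat := ⟨A, fun i => i.1.1, fun i => c (lab i) i, fun i => w (lab i) i,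
    Subtype.val_injective.comp Subtype.val_injective, fun i => h1 _ _, i0⟩
  refine ⟨d, fun e he hd => ?_⟩
  obtain ⟨u, u1, u2, u3⟩ := pick he hd
  let E : Cd := ⟨fun k => (π (u k).1, π (e (u k))), u1, u2, u3⟩
  have lim : ∀ i : A, lab i = E → Tendsto (fun n => e (u (κ i n))) atTop (𝓝 (e ⟨_, U0 (d := d) i 0⟩)) := by
    intro i hi
    refine (he.continuous.tendsto _).comp (tendsto_subtype_rng.2 ?_)
    have h4 : Continuous fun t : ℝ => ψ (d := d) i (0, t) := (ψ_cont _).comp (by fun_prop)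
    refine ((h4.tendsto 0).comp ((z_lim u1).comp (hκ i).tendsto_atTop)).congr fun n => ?_
    refine (π_inj (Rk_pos (u1 _).1).ne' ?_).symm
    have := h2 E i n
    rw [← hi] at this
    simp only [Function.comp, π_ψ, pr, zero_mul, add_zero]
    exact Prod.ext (by rw [hi] at this; simpa [d, hi] using this.symm) rfl
  have lim2 : ∀ (i j : A) a, lab i = E → e ⟨_, U0 (d := d) i 0⟩ = .inr (j, a) → φ E i = some j.1 := by
    intro i j a hi h
    have h4 := (π_cont.tendsto _).comp (lim i hi)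
    rw [h] at h4
    have h5 : ∃ y : J, Tendsto (fun n => (E.1 (κ i n)).2) atTop (𝓝 (y.1, 0)) := ⟨j.1, h4⟩
    exact (dif_pos h5).trans (congrArg some (Subtype.ext
      (Prod.ext_iff.1 (tendsto_nhds_unique h5.choose_spec h4)).1))
  rcases hA E with ⟨x, hx, hi, y, h4, h5⟩ | ⟨Y, h4, h5⟩
  · have h6 : ∃ y : J, Tendsto (fun n => (E.1 (κ x n)).2) atTop (𝓝 (y.1, 0)) := by
      by_contra h6
      cases (dif_neg h6).symm.trans h4
    have h7 := lim ⟨x, hx⟩ hi
    have h8 := (continuous_snd.tendsto _).comp h6.choose_spec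
    rcases h9 : e ⟨_, U0 (d := d) ⟨x, hx⟩ 0⟩ with z | ⟨j, a⟩
    · rw [h9] at h7
      exact z.2 (tendsto_nhds_unique (((continuous_snd.comp π_cont).tendsto _).comp h7) h8)
    obtain rfl : y = j.1 := Option.some.inj (h4.symm.trans (lim2 _ j a hi h9))
    obtain rfl : j = ⟨x, hx⟩ := Subtype.ext (h5 j.2)
    rw [h9.trans (ψ0 (d := d) ⟨x, hx⟩ a).symm] at h7
    have h10 : Tendsto (fun n => θ (d := d) ⟨x, hx⟩ (π (e (u (κ x n))))) atTop (𝓝 (a, 0)) :=
      (ψ_emb _).isEmbedding.tendsto_nhds_iff.2 (h7.congr fun n => π_inj (u3 _) (by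
        rw [Function.comp, π_ψ, pr_θ _ (u3 _)]))
    have h11 := (((continuous_fst.abs.mul continuous_snd.abs).tendsto _).comp h10).eventually
      (gt_mem_nhds (show _ < (1 : ℝ) by simp))
    obtain ⟨n, hn⟩ := h11.exists
    refine hn.not_ge (h3 E x h8 n _ ?_)
    have := congrArg Prod.fst (pr_θ (d := d) ⟨x, hx⟩ (u3 (κ x n)))
    simp only [pr, d, hi] at this
    exact this
  · refine (h5.trans_lt ?_).false
    let Y' : Set A := insert i0 (Subtype.val ⁻¹' Y)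
    have h6 : #Y' < 𝔠 := mk_insert_le.trans_lt (add_lt_of_lt aleph0_le_continuum
      ((mk_preimage_of_injective _ _ Subtype.val_injective).trans_lt h4) (one_lt_aleph0.trans aleph0_lt_continuum))
    refine (mk_le_mk_of_subset ?_).trans_lt (cb (α := A) (β := J) Subtype.val Y' h6 _ fun j => cnt he j)
    rintro x ⟨hx, hi, h7⟩
    refine ⟨⟨x, hx⟩, mem_iUnion₂.2 ?_, rfl⟩
    rcases h9 : e ⟨_, U0 (d := d) ⟨x, hx⟩ 0⟩ with z | ⟨j, a⟩
    · exact ⟨i0, Or.inl rfl, _, (ψ_θ _ z).trans h9.symm⟩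
    · exact ⟨j, Or.inr (h7 _ (lim2 _ j a hi h9)), _, (ψ0 _ a).trans h9.symm⟩

end Pool.Agent.H.MP_034e58
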